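import Mathlib

/-!
# Project RK (MP_aa96c4_al), Lemma C2: class two elimination (helper43)

`E` a finite `p`-group of class at most 2 acting by automorphisms on a finite abelian `p`-group `V`.
Then there is a normal subgroup `K` of `E` with `|E : K| <= |V|` and
`(x - 1) (y - 1) (z - 1) V = 0` for all `x, y, z` in `K`.

Proof: along an `E`-flag `V_j = V_(j-1) + <v_j>` with `(E - 1) v_j <= V_(j-1)` one builds
`E^j = {x in E^(j-1) : (x-1) v_j in W^(j-1)}`, `W^j = W^(j-1) + <(y-1) v_j : y in E^(j-1)>`,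
`Z^j = {z in Z^(j-1) : (z-1) v_j in w^(j-1)}`, `w^j = w^(j-1) + <(z-1) v_j : z in Z^(j-1)>` with
`[E^j,E^j] <= Z^j`, `(E^j-1) W^j <= w^j`, `(E^j-1) w^j = 0`, `(Z^j-1) W^j = 0`.
-/

namespace RK23

open scoped commutatorElement

variable {E V : Type*} [Group E] [AddCommGroup V] [DistribMulAction E V]

/-- The invariants of the elimination after some steps of the flag. -/
structure Stage (F : AddSubgroup V) (EJ ZJ : Subgroup E) (W w : AddSubgroup V) : Prop where
  hFs : ∀ (g : E) (u : V), u ∈ F → g • u ∈ F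
  hWs : ∀ (g : E) (u : V), u ∈ W → g • u ∈ W
  hws : ∀ (g : E) (u : V), u ∈ w → g • u ∈ w
  hN : EJ.Normal
  hZc : ∀ z ∈ ZJ, ∀ g : E, z * g = g * z
  hE1 : ∀ x ∈ EJ, ∀ u ∈ F, x • u - u ∈ W
  hZ1 : ∀ z ∈ ZJ, ∀ u ∈ F, z • u - u ∈ w
  ha : ∀ x ∈ EJ, ∀ y ∈ EJ, ⁅x, y⁆ ∈ ZJ
  hb : ∀ x ∈ EJ, ∀ u ∈ W, x • u - u ∈ w
  hc : ∀ x ∈ EJ, ∀ u ∈ w, x • u - u = 0
  hd : ∀ z ∈ ZJ, ∀ u ∈ W, z • u - u = 0
  hi : EJ.index ≤ Nat.card W

/-- `{x in A : x • v - v in W}` for a stable `W`. -/
def cut (A : Subgroup E) (W : AddSubgroup V) (hW : ∀ (g : E) (u : V), u ∈ W → g • u ∈ W) (v : V) :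
    Subgroup E where
  carrier := {x | x ∈ A ∧ x • v - v ∈ W}
  one_mem' := ⟨A.one_mem, by simp⟩
  mul_mem' := by
    rintro x y ⟨hx, hx'⟩ ⟨hy, hy'⟩
    refine ⟨A.mul_mem hx hy, ?_⟩
    have h : (x * y) • v - v = x • (y • v - v) + (x • v - v) := by
      rw [mul_smul, smul_sub]; abel
    rw [h]
    exact W.add_mem (hW _ _ hy') hx'
  inv_mem' := by
    rintro x ⟨hx, hx'⟩
    refine ⟨A.inv_mem hx, ?_⟩
    have h : x⁻¹ • v - v = -(x⁻¹ • (x • v - v)) := by
      rw [smul_sub, inv_smul_smul]; abel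
    rw [h]
    exact W.neg_mem (hW _ _ hx')

theorem mem_cut {A : Subgroup E} {W : AddSubgroup V}
    {hW : ∀ (g : E) (u : V), u ∈ W → g • u ∈ W} {v : V} {x : E} :
    x ∈ cut A W hW v ↔ x ∈ A ∧ x • v - v ∈ W := Iff.rfl

/-- `W + <(y - 1) v : y in A>`. -/
def ext (A : Subgroup E) (W : AddSubgroup V) (v : V) : AddSubgroup V :=
  AddSubgroup.closure ((W : Set V) ∪ {u | ∃ y ∈ A, u = y • v - v})

theorem le_ext (A : Subgroup E) (W : AddSubgroup V) (v : V) : W ≤ ext A W v :=
  fun _ hu => AddSubgroup.subset_closure (Or.inl hu)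

theorem mem_ext_of {A : Subgroup E} {W : AddSubgroup V} {v : V} {y : E} (hy : y ∈ A) :
    y • v - v ∈ ext A W v :=
  AddSubgroup.subset_closure (Or.inr ⟨y, hy, rfl⟩)

theorem ext_induction {A : Subgroup E} {W : AddSubgroup V} {v : V} {T : AddSubgroup V}
    (f : V →+ V) (h1 : ∀ u ∈ W, f u ∈ T) (h2 : ∀ y ∈ A, f (y • v - v) ∈ T) :
    ∀ u ∈ ext A W v, f u ∈ T := by
  have h : ext A W v ≤ T.comap f := by
    unfold ext
    rw [AddSubgroup.closure_le]
    rintro u (hu | ⟨y, hy, rfl⟩)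
    · exact h1 u hu
    · exact h2 y hy
  exact fun u hu => h hu

/-- the additive map `u ↦ x • u - u` -/
def disp (V : Type*) [AddCommGroup V] [DistribMulAction E V] (x : E) : V →+ V :=
  DistribSMul.toAddMonoidHom V x - AddMonoidHom.id V

@[simp] theorem disp_apply (x : E) (u : V) : disp V x u = x • u - u := rfl

/-- the additive map `u ↦ g • u` -/
def act (V : Type*) [AddCommGroup V] [DistribMulAction E V] (g : E) : V →+ V :=
  DistribSMul.toAddMonoidHom V g

@[simp] theorem act_apply (g : E) (u : V) : act V g u = g • u := rfl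

theorem card_step [Finite E] [Finite V] (A : Subgroup E) (W : AddSubgroup V)
    (hW : ∀ (g : E) (u : V), u ∈ W → g • u ∈ W) (v : V) :
    (cut A W hW v).relIndex A * Nat.card W ≤ Nat.card (ext A W v) := by
  classical
  set B := (cut A W hW v).subgroupOf A with hB
  have hrel : (cut A W hW v).relIndex A = Nat.card (A ⧸ B) := rfl
  rw [hrel, ← Nat.card_prod]
  let f : (A ⧸ B) × W → ext A W v := fun q =>
    ⟨((q.1.out : A) : E) • v - v + (q.2 : V),
      (ext A W v).add_mem (mem_ext_of (q.1.out : A).2) (le_ext A W v q.2.2)⟩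
  refine Nat.card_le_card_of_injective f ?_
  rintro ⟨q, u⟩ ⟨q', u'⟩ h
  have h0 : ((q.out : A) : E) • v - v + (u : V) = ((q'.out : A) : E) • v - v + (u' : V) :=
    congrArg Subtype.val h
  have h1 : (((q'.out : A) : E)⁻¹ * ((q.out : A) : E)) • v - v ∈ W := by
    have h2 : (((q'.out : A) : E)⁻¹ * ((q.out : A) : E)) • v - v
        = ((q'.out : A) : E)⁻¹ • ((u' : V) - (u : V)) := by
      rw [mul_smul]
      have h3 : ((q.out : A) : E) • v = ((q'.out : A) : E) • v + ((u' : V) - (u : V)) := by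
        have h4 := h0
        rw [← sub_eq_zero] at h4 ⊢
        rw [← h4]; abel
      rw [h3, smul_add, inv_smul_smul]; abel
    rw [h2]
    exact hW _ _ (W.sub_mem u'.2 u.2)
  have hq : q = q' := by
    have h5 : (QuotientGroup.mk (q'.out : A) : A ⧸ B) = QuotientGroup.mk (q.out : A) := by
      rw [QuotientGroup.eq]
      change ((q'.out : A)⁻¹ * (q.out : A) : A) ∈ (cut A W hW v).subgroupOf A
      rw [Subgroup.mem_subgroupOf]
      exact ⟨A.mul_mem (A.inv_mem (q'.out : A).2) (q.out : A).2, h1⟩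
    rw [QuotientGroup.out_eq', QuotientGroup.out_eq'] at h5
    exact h5.symm
  subst hq
  have hu : (u : V) = (u' : V) := add_left_cancel h0
  have hu' : u = u' := Subtype.ext hu
  rw [hu']

theorem step [Finite E] [Finite V] {F : AddSubgroup V} {EJ ZJ : Subgroup E} {W w : AddSubgroup V}
    (S : Stage F EJ ZJ W w) (v : V) (hv : ∀ g : E, g • v - v ∈ F) :
    Stage (F ⊔ AddSubgroup.zmultiples v) (cut EJ W S.hWs v) (cut ZJ w S.hws v)
      (ext EJ W v) (ext ZJ w v) := by
  have hnorm : ∀ x ∈ EJ, ∀ g : E, g * x * g⁻¹ ∈ EJ := fun x hx g => S.hN.conj_mem x hx g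
  -- g • v = v + u
  have hgv : ∀ g : E, ∃ u ∈ F, g • v = v + u := fun g => ⟨g • v - v, hv g, by abel⟩
  have hWs' : ∀ (g : E) (u : V), u ∈ ext EJ W v → g • u ∈ ext EJ W v := by
    intro g u hu
    refine ext_induction (act V g) (fun u hu => le_ext _ _ _ (S.hWs g u hu)) ?_ u hu
    intro y hy
    obtain ⟨t, ht, hgt⟩ := hgv g
    have h : g • (y • v - v) = ((g * y * g⁻¹) • v - v) + ((g * y * g⁻¹) • t - t) := by
      have h1 : g • y • v = (g * y * g⁻¹) • g • v := by
        rw [← mul_smul, ← mul_smul]; congr 1; group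
      rw [smul_sub, h1, hgt, smul_add]; abel
    rw [act_apply, h]
    exact (ext EJ W v).add_mem (mem_ext_of (hnorm y hy g))
      (le_ext _ _ _ (S.hE1 _ (hnorm y hy g) t ht))
  have hws' : ∀ (g : E) (u : V), u ∈ ext ZJ w v → g • u ∈ ext ZJ w v := by
    intro g u hu
    refine ext_induction (act V g) (fun u hu => le_ext _ _ _ (S.hws g u hu)) ?_ u hu
    intro z hz
    obtain ⟨t, ht, hgt⟩ := hgv g
    have h : g • (z • v - v) = (z • v - v) + (z • t - t) := by
      have h1 : g • z • v = z • g • v := by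
        rw [← mul_smul, ← mul_smul, S.hZc z hz g]
      rw [smul_sub, h1, hgt, smul_add]; abel
    rw [act_apply, h]
    exact (ext ZJ w v).add_mem (mem_ext_of hz) (le_ext _ _ _ (S.hZ1 _ hz t ht))
  -- the commutator identity
  have hcomm : ∀ x ∈ EJ, ∀ y ∈ EJ, (x * y) • v - (y * x) • v = (y * x) • (⁅x, y⁆ • v - v) := by
    intro x hx y hy
    have hc := S.hZc _ (S.ha x hx y hy) (y * x)
    have h1 : (x * y) = ⁅x, y⁆ * (y * x) := by
      rw [commutatorElement_def]; group
    have h2 : (x * y) • v = (y * x) • ⁅x, y⁆ • v := by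
      rw [← mul_smul (y * x) ⁅x, y⁆ v, ← hc, ← h1]
    rw [smul_sub, h2]
  refine
    { hFs := ?_, hWs := hWs', hws := hws', hN := ?_, hZc := ?_, hE1 := ?_, hZ1 := ?_,
      ha := ?_, hb := ?_, hc := ?_, hd := ?_, hi := ?_ }
  · intro g u hu
    rw [AddSubgroup.mem_sup] at hu
    obtain ⟨a, haF, b, hb, rfl⟩ := hu
    obtain ⟨k, rfl⟩ := AddSubgroup.mem_zmultiples_iff.1 hb
    obtain ⟨t, ht, hgt⟩ := hgv g
    have h : g • (a + k • v) = (g • a + k • t) + k • v := by
      rw [smul_add]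
      have h1 : g • (k • v) = k • (g • v) := smul_comm g k v
      rw [h1, hgt, smul_add]; abel
    rw [h]
    exact AddSubgroup.add_mem_sup (F.add_mem (S.hFs g a haF) (F.zsmul_mem ht k))
      (AddSubgroup.zsmul_mem_zmultiples v k)
  · refine ⟨fun x hx g => ?_⟩
    obtain ⟨hx1, hx2⟩ := mem_cut.1 hx
    refine mem_cut.2 ⟨hnorm x hx1 g, ?_⟩
    obtain ⟨t, ht, hgt⟩ := hgv g⁻¹
    have h : (g * x * g⁻¹) • v - v = g • ((x • v - v) + (x • t - t)) := by
      have h1 : (g * x * g⁻¹) • v = g • x • g⁻¹ • v := by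
        rw [mul_smul, mul_smul]
      have h2 : v = g • g⁻¹ • v := by rw [smul_inv_smul]
      have h3 : (g * x * g⁻¹) • v - v = g • (x • g⁻¹ • v - g⁻¹ • v) := by
        rw [smul_sub, ← h2, h1]
      rw [h3, hgt, smul_add]
      congr 1; abel
    rw [h]
    exact S.hWs _ _ (W.add_mem hx2 (S.hE1 x hx1 t ht))
  · intro z hz g
    exact S.hZc z (mem_cut.1 hz).1 g
  · intro x hx u hu
    obtain ⟨hx1, hx2⟩ := mem_cut.1 hx
    rw [AddSubgroup.mem_sup] at hu
    obtain ⟨a, haF, b, hb, rfl⟩ := hu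
    obtain ⟨k, rfl⟩ := AddSubgroup.mem_zmultiples_iff.1 hb
    have h : x • (a + k • v) - (a + k • v) = (x • a - a) + k • (x • v - v) := by
      have h1 : x • (k • v) = k • (x • v) := smul_comm x k v
      rw [smul_add, h1, smul_sub]; abel
    rw [h]
    exact le_ext _ _ _ (W.add_mem (S.hE1 x hx1 a haF) (W.zsmul_mem hx2 k))
  · intro x hx u hu
    obtain ⟨hx1, hx2⟩ := mem_cut.1 hx
    rw [AddSubgroup.mem_sup] at hu
    obtain ⟨a, haF, b, hb, rfl⟩ := hu
    obtain ⟨k, rfl⟩ := AddSubgroup.mem_zmultiples_iff.1 hb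
    have h : x • (a + k • v) - (a + k • v) = (x • a - a) + k • (x • v - v) := by
      have h1 : x • (k • v) = k • (x • v) := smul_comm x k v
      rw [smul_add, h1, smul_sub]; abel
    rw [h]
    exact le_ext _ _ _ (w.add_mem (S.hZ1 x hx1 a haF) (w.zsmul_mem hx2 k))
  · intro x hx y hy
    obtain ⟨hx1, hx2⟩ := mem_cut.1 hx
    obtain ⟨hy1, hy2⟩ := mem_cut.1 hy
    refine mem_cut.2 ⟨S.ha x hx1 y hy1, ?_⟩
    have h1 := hcomm x hx1 y hy1
    have h2 : (x * y) • v - (y * x) • v
        = (x • (y • v - v) - (y • v - v)) - (y • (x • v - v) - (x • v - v)) := by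
      rw [mul_smul, mul_smul, smul_sub, smul_sub]; abel
    have h3 : (x * y) • v - (y * x) • v ∈ w := by
      rw [h2]
      exact w.sub_mem (S.hb x hx1 _ hy2) (S.hb y hy1 _ hx2)
    have h4 : ⁅x, y⁆ • v - v = (y * x)⁻¹ • ((x * y) • v - (y * x) • v) := by
      rw [h1, inv_smul_smul]
    rw [h4]
    exact S.hws _ _ h3
  · intro x hx
    obtain ⟨hx1, hx2⟩ := mem_cut.1 hx
    refine ext_induction (disp V x) (fun u hu => le_ext _ _ _ (S.hb x hx1 u hu)) ?_
    intro y hy
    have h1 := hcomm x hx1 y hy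
    have h2 : x • (y • v - v) - (y • v - v)
        = (y • (x • v - v) - (x • v - v)) + (y * x) • (⁅x, y⁆ • v - v) := by
      rw [← h1, mul_smul, mul_smul, smul_sub, smul_sub]; abel
    rw [disp_apply, h2]
    exact (ext ZJ w v).add_mem (le_ext _ _ _ (S.hb y hy _ hx2))
      (hws' _ _ (mem_ext_of (S.ha x hx1 y hy)))
  · intro x hx u hu
    obtain ⟨hx1, hx2⟩ := mem_cut.1 hx
    have h := ext_induction (T := (⊥ : AddSubgroup V)) (disp V x)
      (fun u hu => by rw [AddSubgroup.mem_bot, disp_apply]; exact S.hc x hx1 u hu) ?_ u hu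
    · rw [AddSubgroup.mem_bot] at h
      exact h
    · intro z hz
      rw [AddSubgroup.mem_bot, disp_apply]
      have h1 : x • (z • v - v) - (z • v - v) = z • (x • v - v) - (x • v - v) := by
        have h2 : x • z • v = z • x • v := by
          rw [← mul_smul, ← mul_smul, S.hZc z hz x]
        rw [smul_sub, smul_sub, h2]; abel
      rw [h1]
      exact S.hd z hz _ hx2
  · intro z hz u hu
    obtain ⟨hz1, hz2⟩ := mem_cut.1 hz
    have h := ext_induction (T := (⊥ : AddSubgroup V)) (disp V z)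
      (fun u hu => by rw [AddSubgroup.mem_bot, disp_apply]; exact S.hd z hz1 u hu) ?_ u hu
    · rw [AddSubgroup.mem_bot] at h
      exact h
    · intro y hy
      rw [AddSubgroup.mem_bot, disp_apply]
      have h1 : z • (y • v - v) - (y • v - v) = y • (z • v - v) - (z • v - v) := by
        have h2 : z • y • v = y • z • v := by
          rw [← mul_smul, ← mul_smul, S.hZc z hz1 y]
        rw [smul_sub, smul_sub, h2]; abel
      rw [h1]
      exact S.hc y hy _ hz2
  · have hle : cut EJ W S.hWs v ≤ EJ := fun x hx => (mem_cut.1 hx).1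
    rw [← Subgroup.relIndex_mul_index hle]
    calc (cut EJ W S.hWs v).relIndex EJ * EJ.index
        ≤ (cut EJ W S.hWs v).relIndex EJ * Nat.card W := Nat.mul_le_mul_left _ S.hi
      _ ≤ Nat.card (ext EJ W v) := card_step EJ W S.hWs v

/-- The induced additive map on the quotient by a stable subgroup. -/
def qmap (F : AddSubgroup V) (hF : ∀ (g : E) (u : V), u ∈ F → g • u ∈ F) (g : E) :
    V ⧸ F →+ V ⧸ F :=
  QuotientAddGroup.map F F (act V g)
    (fun u hu => by rw [AddSubgroup.mem_comap, act_apply]; exact hF g u hu)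

theorem qmap_mk (F : AddSubgroup V) (hF : ∀ (g : E) (u : V), u ∈ F → g • u ∈ F) (g : E) (u : V) :
    qmap F hF g (u : V ⧸ F) = ((g • u : V) : V ⧸ F) := by
  unfold qmap
  rw [QuotientAddGroup.map_mk, act_apply]

/-- The induced action on the quotient by a stable subgroup. -/
@[reducible] def quotAction (F : AddSubgroup V) (hF : ∀ (g : E) (u : V), u ∈ F → g • u ∈ F) :
    MulAction E (V ⧸ F) where
  smul g := qmap F hF g
  one_smul q := by
    induction q using QuotientAddGroup.induction_on with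
    | H u =>
      change qmap F hF (1 : E) (u : V ⧸ F) = _
      rw [qmap_mk, one_smul]
  mul_smul g h q := by
    induction q using QuotientAddGroup.induction_on with
    | H u =>
      change qmap F hF (g * h) (u : V ⧸ F) = qmap F hF g (qmap F hF h (u : V ⧸ F))
      rw [qmap_mk, qmap_mk, qmap_mk, mul_smul]

theorem exists_next {p : ℕ} [Fact p.Prime] [Finite E] [Finite V] (hE : IsPGroup p E)
    (hV : ∃ n : ℕ, Nat.card V = p ^ n) (F : AddSubgroup V)
    (hF : ∀ (g : E) (u : V), u ∈ F → g • u ∈ F) (hFt : F ≠ ⊤) :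
    ∃ v : V, v ∉ F ∧ ∀ g : E, g • v - v ∈ F := by
  let _ := quotAction F hF
  obtain ⟨n, hn⟩ := hV
  have hdvd : F.index ∣ p ^ n := hn ▸ F.index_dvd_card
  obtain ⟨m, -, hm⟩ := (Nat.dvd_prime_pow (Fact.out : p.Prime)).1 hdvd
  have hm0 : m ≠ 0 := by
    rintro rfl
    rw [pow_zero] at hm
    exact hFt (AddSubgroup.index_eq_one.1 hm)
  have hp : p ∣ Nat.card (V ⧸ F) := by
    have : Nat.card (V ⧸ F) = p ^ m := hm
    rw [this]
    exact dvd_pow_self p hm0
  have h0 : (0 : V ⧸ F) ∈ MulAction.fixedPoints E (V ⧸ F) := by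
    intro g
    change qmap F hF g (0 : V ⧸ F) = 0
    rw [map_zero]
  obtain ⟨b, hb, hb0⟩ := hE.exists_fixed_point_of_prime_dvd_card_of_fixed_point (V ⧸ F) hp h0
  induction b using QuotientAddGroup.induction_on with
  | H v =>
    refine ⟨v, ?_, ?_⟩
    · intro hv
      exact hb0 ((QuotientAddGroup.eq_zero_iff v).2 hv).symm
    · intro g
      have h1 := hb g
      change qmap F hF g (v : V ⧸ F) = (v : V ⧸ F) at h1
      rw [qmap_mk] at h1
      have h2 : ((g • v - v : V) : V ⧸ F) = 0 := by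
        rw [QuotientAddGroup.mk_sub, h1, sub_self]
      exact (QuotientAddGroup.eq_zero_iff _).1 h2

theorem reach {p : ℕ} [Fact p.Prime] [Finite E] [Finite V] (hE : IsPGroup p E)
    (hV : ∃ n : ℕ, Nat.card V = p ^ n) (n : ℕ) :
    ∀ (F : AddSubgroup V) (EJ ZJ : Subgroup E) (W w : AddSubgroup V), Stage F EJ ZJ W w →
      F.index ≤ n → ∃ (EJ' ZJ' : Subgroup E) (W' w' : AddSubgroup V),
        Stage (⊤ : AddSubgroup V) EJ' ZJ' W' w' := by
  induction n with
  | zero =>
    intro F EJ ZJ W w S hn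
    exact absurd (Nat.le_zero.1 hn) AddSubgroup.index_ne_zero_of_finite
  | succ n ih =>
    intro F EJ ZJ W w S hn
    by_cases hFt : F = ⊤
    · subst hFt
      exact ⟨EJ, ZJ, W, w, S⟩
    · obtain ⟨v, hvF, hv⟩ := exists_next hE hV F S.hFs hFt
      refine ih _ _ _ _ _ (step S v hv) ?_
      have hlt : F < F ⊔ AddSubgroup.zmultiples v := by
        refine lt_of_le_of_ne le_sup_left ?_
        intro h
        apply hvF
        rw [h]
        exact (le_sup_right : AddSubgroup.zmultiples v ≤ F ⊔ AddSubgroup.zmultiples v)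
          (AddSubgroup.mem_zmultiples v)
      have h1 := AddSubgroup.index_strictAnti hlt
      omega

/-- **Lemma C2** (class two elimination, helper43). -/
theorem class_two_elimination {p : ℕ} [Fact p.Prime] {E V : Type*} [Group E] [Finite E]
    [AddCommGroup V] [Finite V] [DistribMulAction E V] (hE : IsPGroup p E)
    (hV : ∃ n : ℕ, Nat.card V = p ^ n) (hcl : ∀ x y z : E, ⁅⁅x, y⁆, z⁆ = 1) :
    ∃ K : Subgroup E, K.Normal ∧ K.index ≤ Nat.card V ∧
      ∀ x ∈ K, ∀ y ∈ K, ∀ z ∈ K, ∀ v : V,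
        x • (y • (z • v - v) - (z • v - v)) - (y • (z • v - v) - (z • v - v)) = 0 := by
  have S0 : Stage (⊥ : AddSubgroup V) (⊤ : Subgroup E) (Subgroup.center E) (⊥ : AddSubgroup V)
      (⊥ : AddSubgroup V) := by
    refine
      { hFs := ?_, hWs := ?_, hws := ?_, hN := inferInstance, hZc := ?_, hE1 := ?_, hZ1 := ?_,
        ha := ?_, hb := ?_, hc := ?_, hd := ?_, hi := ?_ }
    · intro g u hu
      rw [AddSubgroup.mem_bot] at hu ⊢
      rw [hu, smul_zero]
    · intro g u hu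
      rw [AddSubgroup.mem_bot] at hu ⊢
      rw [hu, smul_zero]
    · intro g u hu
      rw [AddSubgroup.mem_bot] at hu ⊢
      rw [hu, smul_zero]
    · intro z hz g
      exact (Subgroup.mem_center_iff.1 hz g).symm
    · intro x _ u hu
      rw [AddSubgroup.mem_bot] at hu ⊢
      rw [hu, smul_zero, sub_zero]
    · intro x _ u hu
      rw [AddSubgroup.mem_bot] at hu ⊢
      rw [hu, smul_zero, sub_zero]
    · intro x _ y _
      rw [Subgroup.mem_center_iff]
      intro g
      exact (commutatorElement_eq_one_iff_mul_comm.1 (hcl x y g)).symm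
    · intro x _ u hu
      rw [AddSubgroup.mem_bot] at hu ⊢
      rw [hu, smul_zero, sub_zero]
    · intro x _ u hu
      rw [AddSubgroup.mem_bot] at hu
      rw [hu, smul_zero, sub_zero]
    · intro x _ u hu
      rw [AddSubgroup.mem_bot] at hu
      rw [hu, smul_zero, sub_zero]
    · rw [Subgroup.index_top]
      exact Nat.card_pos
  obtain ⟨EJ, ZJ, W, w, S⟩ := reach hE hV _ _ _ _ _ _ S0 le_rfl
  refine ⟨EJ, S.hN, S.hi.trans ?_, ?_⟩
  · exact Nat.card_le_card_of_injective _ Subtype.val_injective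
  · intro x hx y hy z hz v
    exact S.hc x hx _ (S.hb y hy _ (S.hE1 z hz v (AddSubgroup.mem_top v)))

end RK23
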